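import Mathlib
import Pool.Agent.Helper8.DilationLib

/-!
Relatively dense simultaneous approximation of `τ log p` by integers of prescribed parity
(module 3 of the order-independence barrier for MP_e6fa8b_nt).
-/

namespace Pool.Agent.Helper13.Order

open Finset Filter Topology

lemma kron_dense (Q : Finset ℕ) (hQ : ∀ p ∈ Q, p.Prime) (σ : ℕ → ℝ) (hσ : ∀ p, σ p = 1 ∨ σ p = -1)
    (δ : ℝ) (hδ : 0 < δ) :
    ∃ G : ℝ, 0 ≤ G ∧ ∀ T0 : ℝ, ∃ τ : ℝ, T0 ≤ τ ∧ τ ≤ T0 + G ∧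
      ∃ m : ℕ → ℤ, ∀ p ∈ Q, |τ * Real.log p - m p| ≤ δ ∧ (-1 : ℝ) ^ (m p) = σ p := by
  classical
  obtain ⟨τ0, -, m0, hm0⟩ :=
    Pool.Agent.Helper8.Dilation.kron Q hQ σ hσ (δ / 2) (by positivity) 0
  have : Fact (0 < (2 : ℝ)) := ⟨by norm_num⟩
  let f : ℝ → (Q → AddCircle (2 : ℝ)) := fun t p => ((t * Real.log (p : ℕ) : ℝ) : AddCircle (2 : ℝ))
  have htb : TotallyBounded (Set.range f) :=
    TotallyBounded.subset (Set.subset_univ _) isCompact_univ.totallyBounded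
  obtain ⟨S, hSsub, hSfin, hcov⟩ := Metric.finite_approx_of_totallyBounded htb (δ / 2) (by positivity)
  choose! g hg using fun y (hy : y ∈ S) => hSsub hy
  obtain ⟨G1, hG1⟩ : ∃ G1 : ℝ, ∀ y ∈ S, |g y| ≤ G1 := by
    obtain ⟨M, hM⟩ := (hSfin.image (fun y => |g y|)).bddAbove
    exact ⟨M, fun y hy => hM ⟨y, hy, rfl⟩⟩
  have hG0 : 0 ≤ G1 := by
    have h1 : f 0 ∈ ⋃ y ∈ S, Metric.ball y (δ / 2) := hcov ⟨0, rfl⟩
    simp only [Set.mem_iUnion] at h1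
    obtain ⟨y, hy, -⟩ := h1
    exact (abs_nonneg _).trans (hG1 y hy)
  refine ⟨2 * G1, by positivity, fun T0 => ?_⟩
  have h1 : f (-(T0 - τ0 + G1)) ∈ ⋃ y ∈ S, Metric.ball y (δ / 2) := hcov ⟨_, rfl⟩
  simp only [Set.mem_iUnion] at h1
  obtain ⟨y, hy, hdist⟩ := h1
  have h2 := hG1 y hy
  rw [abs_le] at h2
  set s := T0 - τ0 + G1 + g y with hs
  refine ⟨τ0 + s, by rw [hs]; linarith, by rw [hs]; linarith, ?_⟩
  have h3 : ∀ p ∈ Q, ∃ k : ℤ, |s * Real.log p - 2 * k| ≤ δ / 2 := by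
    intro p hp
    rw [Metric.mem_ball, ← hg y hy, dist_pi_lt_iff (by positivity)] at hdist
    have h4 := (hdist ⟨p, hp⟩).le
    rw [dist_eq_norm] at h4
    have h5 : f (-(T0 - τ0 + G1)) ⟨p, hp⟩ - f (g y) ⟨p, hp⟩
        = ((-(s * Real.log p) : ℝ) : AddCircle (2 : ℝ)) := by
      simp only [f]
      rw [← AddCircle.coe_sub]
      congr 1
      rw [hs]; ring
    rw [h5, AddCircle.norm_eq] at h4
    refine ⟨-round ((2 : ℝ)⁻¹ * -(s * Real.log p)), ?_⟩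
    refine le_trans (le_of_eq ?_) h4
    rw [← abs_neg]
    congr 1
    push_cast; ring
  choose! k hk using h3
  refine ⟨fun p => m0 p + 2 * k p, fun p hp => ⟨?_, ?_⟩⟩
  · have h4 := (hm0 p hp).1
    have h5 := hk p hp
    push_cast
    rw [abs_le] at h4 h5 ⊢
    constructor <;> linarith [h4.1, h4.2, h5.1, h5.2]
  · rw [zpow_add₀ (by norm_num), zpow_mul]
    norm_num
    exact (hm0 p hp).2

end Pool.Agent.Helper13.Order
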