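import Mathlib

/-!
Few terms near integers if a few exponential sums are small
(module 5 of the order-independence barrier for MP_e6fa8b_nt).
-/

namespace Pool.Agent.Helper13.Order

open Finset Filter Topology

lemma cb_bound (K : ℕ) : (Nat.centralBinom K : ℝ) ^ 2 * (2 * K + 1) ≤ (4 ^ K) ^ 2 := by
  induction K with
  | zero => simp
  | succ K ih =>
    have h := Nat.succ_mul_centralBinom_succ K
    have h' : ((K : ℝ) + 1) * (Nat.centralBinom (K + 1) : ℝ) = 2 * (2 * K + 1) * Nat.centralBinom K := by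
      exact_mod_cast h
    set a := (Nat.centralBinom (K + 1) : ℝ)
    set b := (Nat.centralBinom K : ℝ)
    have hK : (0 : ℝ) ≤ K := by positivity
    have h2 : ((K : ℝ) + 1) ^ 2 * (a ^ 2 * (2 * ((K + 1 : ℕ) : ℝ) + 1))
        = 4 * (2 * K + 1) * (2 * K + 3) * (b ^ 2 * (2 * K + 1)) := by
      have : ((K : ℝ) + 1) ^ 2 * (a ^ 2 * (2 * ((K + 1 : ℕ) : ℝ) + 1))
          = (((K : ℝ) + 1) * a) ^ 2 * (2 * K + 3) := by push_cast; ring
      rw [this, h']; ring
    have h3 : 4 * (2 * (K : ℝ) + 1) * (2 * K + 3) * (b ^ 2 * (2 * K + 1))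
        ≤ 16 * ((K : ℝ) + 1) ^ 2 * (4 ^ K) ^ 2 := by
      apply mul_le_mul _ ih (by positivity) (by positivity)
      nlinarith
    have h4 : ((K : ℝ) + 1) ^ 2 * (a ^ 2 * (2 * ((K + 1 : ℕ) : ℝ) + 1))
        ≤ ((K : ℝ) + 1) ^ 2 * (4 ^ (K + 1)) ^ 2 := by
      rw [h2]; refine h3.trans (le_of_eq ?_); rw [pow_succ (4 : ℝ) K]; ring
    exact le_of_mul_le_mul_left h4 (by positivity)

lemma expand (K : ℕ) (x : ℝ) : ((Real.cos (Real.pi * x) ^ (2 * K) : ℝ) : ℂ)
    = ∑ j ∈ range (2 * K + 1), (((2 * K).choose j : ℝ) / 4 ^ K : ℝ) *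
        Complex.exp ((2 * Real.pi * ((j : ℝ) - K) * x : ℝ) * Complex.I) := by
  rw [Complex.ofReal_pow, Complex.ofReal_cos, Complex.cos, div_pow, add_pow, Finset.sum_div]
  refine Finset.sum_congr rfl fun j hj => ?_
  have hj' : j ≤ 2 * K := by simpa [Nat.lt_succ_iff] using hj
  rw [← Complex.exp_nat_mul, ← Complex.exp_nat_mul, ← Complex.exp_add]
  have e1 : (j : ℂ) * (((Real.pi * x : ℝ) : ℂ) * Complex.I)
      + ((2 * K - j : ℕ) : ℂ) * (-((Real.pi * x : ℝ) : ℂ) * Complex.I)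
      = ((2 * Real.pi * ((j : ℝ) - K) * x : ℝ) : ℂ) * Complex.I := by
    rw [Nat.cast_sub hj']; push_cast; ring
  rw [e1]
  have e2 : (2 : ℂ) ^ (2 * K) = 4 ^ K := by rw [pow_mul]; norm_num
  rw [e2]; push_cast; ring

lemma near (ε : ℝ) (hε : 0 < ε) : ∃ η : ℝ, 0 < η ∧ ∃ δ : ℝ, 0 < δ ∧ ∃ K : ℕ,
    ∀ (N : ℕ) (A : Finset ℕ) (x : ℕ → ℝ), (A.card : ℝ) ≤ N →
    (∀ m : ℕ, 1 ≤ m → m ≤ K →
      ‖∑ n ∈ A, Complex.exp ((2 * Real.pi * m * x n : ℝ) * Complex.I)‖ ≤ δ * N) →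
    ∀ B ⊆ A, (∀ n ∈ B, ∃ k : ℤ, |x n - k| ≤ η) → (B.card : ℝ) ≤ ε * N := by
  -- choose `K`
  obtain ⟨K, hK⟩ : ∃ K : ℕ, (Nat.centralBinom K : ℝ) / 4 ^ K ≤ ε / 4 := by
    obtain ⟨K, hK⟩ := exists_nat_gt ((4 / ε) ^ 2)
    refine ⟨K, ?_⟩
    have h1 := cb_bound K
    have h2 : ((Nat.centralBinom K : ℝ) / 4 ^ K) ^ 2 * (2 * K + 1) ≤ 1 := by
      rw [div_pow, div_mul_eq_mul_div, div_le_one (by positivity)]
      exact h1
    have h3 : (4 / ε) ^ 2 ≤ 2 * (K : ℝ) + 1 := by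
      have : (0 : ℝ) ≤ K := by positivity
      linarith
    have h4 : ((Nat.centralBinom K : ℝ) / 4 ^ K) ^ 2 * (4 / ε) ^ 2 ≤ 1 :=
      (mul_le_mul_of_nonneg_left h3 (by positivity)).trans h2
    have h5 : ((Nat.centralBinom K : ℝ) / 4 ^ K * (4 / ε)) ^ 2 ≤ 1 := by rw [mul_pow]; exact h4
    have h6 : (Nat.centralBinom K : ℝ) / 4 ^ K * (4 / ε) ≤ 1 := by
      have := abs_le_of_sq_le_sq (a := (Nat.centralBinom K : ℝ) / 4 ^ K * (4 / ε)) (b := 1)
        (by simpa using h5) (by norm_num)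
      exact (le_abs_self _).trans this
    rw [mul_div_assoc', div_le_one hε] at h6
    linarith
  have hpi := Real.pi_pos
  set η : ℝ := 1 / (Real.pi * (K + 1)) with hη
  have hη0 : 0 < η := by positivity
  refine ⟨η, hη0, ε / 4, by positivity, K, ?_⟩
  intro N A x hA hm B hB hnear
  -- lower bound on `B`
  have hlow : ∀ n ∈ B, (1 : ℝ) / 2 ≤ Real.cos (Real.pi * x n) ^ (2 * K) := by
    intro n hn
    obtain ⟨k, hk⟩ := hnear n hn
    have h1 : Real.cos (Real.pi * x n) ^ (2 * K) = Real.cos (Real.pi * (x n - k)) ^ (2 * K) := by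
      have : Real.pi * (x n - k) = Real.pi * x n - k * Real.pi := by ring
      rw [this, Real.cos_sub_int_mul_pi, mul_pow]
      have h2 : ((-1 : ℝ) ^ k) ^ (2 * K) = 1 := by
        rcases Int.even_or_odd k with h | h
        · rw [h.neg_one_zpow]; simp
        · rw [h.neg_one_zpow, pow_mul]; simp
      rw [h2, one_mul]
    rw [h1]
    set y := x n - k with hy
    have h2 : 1 - (Real.pi * y) ^ 2 / 2 ≤ Real.cos (Real.pi * y) :=
      Real.one_sub_sq_div_two_le_cos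
    have h3 : (Real.pi * y) ^ 2 ≤ 1 / (K + 1) ^ 2 := by
      have : |Real.pi * y| ≤ 1 / (K + 1) := by
        rw [abs_mul, abs_of_pos hpi]
        calc Real.pi * |y| ≤ Real.pi * η := mul_le_mul_of_nonneg_left hk hpi.le
          _ = 1 / (K + 1) := by rw [hη]; field_simp
      rw [← sq_abs]
      calc |Real.pi * y| ^ 2 ≤ (1 / ((K : ℝ) + 1)) ^ 2 := pow_le_pow_left₀ (abs_nonneg _) this 2
        _ = 1 / (K + 1) ^ 2 := by rw [div_pow, one_pow]
    have hK0 : (0 : ℝ) ≤ K := by positivity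
    have h4 : 1 - 1 / (2 * ((K : ℝ) + 1) ^ 2) ≤ Real.cos (Real.pi * y) := by
      have : 1 / (2 * ((K : ℝ) + 1) ^ 2) = 1 / (K + 1) ^ 2 / 2 := by field_simp
      rw [this]; linarith
    have h5 : (0 : ℝ) ≤ 1 / (2 * ((K : ℝ) + 1) ^ 2) := by positivity
    have h6 : 1 / (2 * ((K : ℝ) + 1) ^ 2) ≤ 1 / 2 := by
      apply one_div_le_one_div_of_le (by norm_num)
      nlinarith
    have h7 : (1 : ℝ) + (2 * K : ℕ) * (-(1 / (2 * ((K : ℝ) + 1) ^ 2)))
        ≤ (1 + -(1 / (2 * ((K : ℝ) + 1) ^ 2))) ^ (2 * K) :=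
      one_add_mul_le_pow (by linarith) _
    have h8 : (1 + -(1 / (2 * ((K : ℝ) + 1) ^ 2))) ^ (2 * K) ≤ Real.cos (Real.pi * y) ^ (2 * K) :=
      pow_le_pow_left₀ (by linarith) (by linarith) _
    have h9 : (K : ℝ) / (K + 1) ^ 2 ≤ 1 / 2 := by
      rw [div_le_div_iff₀ (by positivity) (by norm_num)]
      nlinarith
    have h10 : (1 : ℝ) + (2 * K : ℕ) * (-(1 / (2 * ((K : ℝ) + 1) ^ 2))) = 1 - K / (K + 1) ^ 2 := by
      push_cast; field_simp; ring
    rw [h10] at h7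
    linarith
  have hnn : ∀ n, 0 ≤ Real.cos (Real.pi * x n) ^ (2 * K) := fun n => by
    rw [pow_mul]; positivity
  have h1 : (B.card : ℝ) * (1 / 2) ≤ ∑ n ∈ A, Real.cos (Real.pi * x n) ^ (2 * K) := by
    calc (B.card : ℝ) * (1 / 2) = ∑ n ∈ B, (1 / 2 : ℝ) := by rw [Finset.sum_const, nsmul_eq_mul]
      _ ≤ ∑ n ∈ B, Real.cos (Real.pi * x n) ^ (2 * K) := Finset.sum_le_sum hlow
      _ ≤ _ := Finset.sum_le_sum_of_subset_of_nonneg hB fun n _ _ => hnn n
  -- each exponential sum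
  have hsum : ∀ j ∈ range (2 * K + 1),
      ‖∑ n ∈ A, Complex.exp ((2 * Real.pi * ((j : ℝ) - K) * x n : ℝ) * Complex.I)‖
        ≤ if j = K then (N : ℝ) else ε / 4 * N := by
    intro j hj
    have hj' : j ≤ 2 * K := by simpa [Nat.lt_succ_iff] using hj
    split_ifs with h
    · subst h
      simp only [sub_self, mul_zero, zero_mul, Complex.ofReal_zero, Complex.exp_zero]
      simpa using hA
    · rcases lt_or_gt_of_ne h with h | h
      · have h2 := hm (K - j) (by omega) (by omega)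
        refine le_trans (le_of_eq ?_) h2
        rw [← Complex.norm_conj, map_sum]
        congr 1
        refine Finset.sum_congr rfl fun n _ => ?_
        rw [← Complex.exp_conj, map_mul, Complex.conj_I, Complex.conj_ofReal, Nat.cast_sub h.le]
        congr 1
        push_cast; ring
      · have h2 := hm (j - K) (by omega) (by omega)
        refine le_trans (le_of_eq ?_) h2
        congr 1
        refine Finset.sum_congr rfl fun n _ => ?_
        rw [Nat.cast_sub h.le]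
  have h2 : ∑ n ∈ A, Real.cos (Real.pi * x n) ^ (2 * K)
      ≤ ∑ j ∈ range (2 * K + 1), ((2 * K).choose j : ℝ) / 4 ^ K *
          (if j = K then (N : ℝ) else ε / 4 * N) := by
    have h3 : ((∑ n ∈ A, Real.cos (Real.pi * x n) ^ (2 * K) : ℝ) : ℂ)
        = ∑ j ∈ range (2 * K + 1), (((2 * K).choose j : ℝ) / 4 ^ K : ℝ) *
          ∑ n ∈ A, Complex.exp ((2 * Real.pi * ((j : ℝ) - K) * x n : ℝ) * Complex.I) := by
      rw [Complex.ofReal_sum]
      simp_rw [expand, Finset.mul_sum]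
      rw [Finset.sum_comm]
    have h4 : ∑ n ∈ A, Real.cos (Real.pi * x n) ^ (2 * K)
        = ‖((∑ n ∈ A, Real.cos (Real.pi * x n) ^ (2 * K) : ℝ) : ℂ)‖ := by
      rw [Complex.norm_real, Real.norm_of_nonneg (Finset.sum_nonneg fun n _ => hnn n)]
    rw [h4, h3]
    refine (norm_sum_le _ _).trans (Finset.sum_le_sum fun j hj => ?_)
    rw [norm_mul, Complex.norm_real, Real.norm_of_nonneg (by positivity)]
    exact mul_le_mul_of_nonneg_left (hsum j hj) (by positivity)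
  have h3 : ∑ j ∈ range (2 * K + 1), ((2 * K).choose j : ℝ) / 4 ^ K *
          (if j = K then (N : ℝ) else ε / 4 * N)
      ≤ (Nat.centralBinom K : ℝ) / 4 ^ K * N + ε / 4 * N := by
    have h4 : ∀ j ∈ range (2 * K + 1), ((2 * K).choose j : ℝ) / 4 ^ K *
          (if j = K then (N : ℝ) else ε / 4 * N)
        ≤ (if j = K then ((2 * K).choose j : ℝ) / 4 ^ K * N else 0)
          + ((2 * K).choose j : ℝ) / 4 ^ K * (ε / 4 * N) := by
      intro j _
      split_ifs with h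
      · have : (0 : ℝ) ≤ ((2 * K).choose j : ℝ) / 4 ^ K * (ε / 4 * N) := by positivity
        linarith
      · linarith
    refine (Finset.sum_le_sum h4).trans (le_of_eq ?_)
    rw [Finset.sum_add_distrib, ← Finset.sum_mul, ← Finset.sum_div]
    rw [Finset.sum_ite_eq' (range (2 * K + 1)) K, if_pos (by simp; omega)]
    have h5 : ∑ j ∈ range (2 * K + 1), ((2 * K).choose j : ℝ) = 4 ^ K := by
      have := Nat.sum_range_choose (2 * K)
      rw [← Nat.cast_sum, this, pow_mul]; norm_num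
    rw [h5, div_self (by positivity), one_mul, Nat.centralBinom]
  have h4 : (Nat.centralBinom K : ℝ) / 4 ^ K * N ≤ ε / 4 * N :=
    mul_le_mul_of_nonneg_right hK (by positivity)
  linarith

end Pool.Agent.Helper13.Order
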